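import Pool.Agent.TH742.TC.Rel

set_option autoImplicit false

/-!
Every oracle relative to which the discrete space `ℕ` is categorical computes the halting set.
-/

namespace Pool.Agent.TH742.TC

open Encodable Pool.Agent.Helper578.JD.Oracle
open Pool.Agent.Helper578.JD hiding Red
open Pool.Agent.Helper578.JD.RE
open Pool.Agent.Helper583.TC (Red orc)
open Pool.Agent.Helper583.TT (CMS IsName pre)
open Pool.Agent.H109R3.TC

/-- the natural numbers with the usual metric -/
noncomputable def Std : CMS where
  Y := ℕ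
  c := id
  dense := Function.surjective_id.denseRange
  comp := by
    refine ⟨fun x => (if x.1 ≤ x.2.1 then x.2.1 - x.1 else x.1 - x.2.1) * 2 ^ x.2.2, ?_, ?_⟩
    · have hpow : Primrec fun n : ℕ => 2 ^ n := by
        have := (Primrec.nat_rec' (f := fun n : ℕ => n) (g := fun _ => 1)
          (h := fun _ (p : ℕ × ℕ) => 2 * p.2) Primrec.id (Primrec.const 1)
          (Primrec.nat_mul.comp (Primrec.const 2) (Primrec.snd.comp Primrec.snd)))
        refine this.of_eq fun n => ?_
        induction n with
        | zero => rfl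
        | succ n ih => rw [pow_succ, mul_comm]; simp only at ih ⊢; rw [ih]
      have h1 : Primrec fun x : ℕ × ℕ × ℕ => x.1 := Primrec.fst
      have h2 : Primrec fun x : ℕ × ℕ × ℕ => x.2.1 := Primrec.fst.comp Primrec.snd
      have h3 : Primrec fun x : ℕ × ℕ × ℕ => x.2.2 := Primrec.snd.comp Primrec.snd
      exact (Primrec.nat_mul.comp (Primrec.ite (Primrec.nat_le.comp h1 h2)
        (Primrec.nat_sub.comp h2 h1) (Primrec.nat_sub.comp h1 h2)) (hpow.comp h3)).to_comp
    · intro i j k
      have h : dist (id i : ℕ) (id j) = ((if i ≤ j then j - i else i - j : ℕ) : ℝ) := by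
        rw [Nat.dist_eq]
        simp only [id]
        split_ifs with h
        · rw [Nat.cast_sub h, abs_sub_comm, abs_of_nonneg]
          have : (i : ℝ) ≤ j := by exact_mod_cast h
          linarith
        · have h' : j ≤ i := by omega
          rw [Nat.cast_sub h', abs_of_nonneg]
          have : (j : ℝ) ≤ i := by exact_mod_cast h'
          linarith
      rw [h]
      dsimp only
      rw [Nat.cast_mul, Nat.cast_pow, Nat.cast_ofNat, mul_div_assoc, div_self (by positivity),
        mul_one, sub_self, abs_zero]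
      positivity

theorem exists_stage : ∃ q : ℕ → ℕ → Bool, Computable₂ q ∧
    ∀ e, K e ↔ ∃ s, q e s = true := by
  obtain ⟨q, hq, h⟩ := RE.re_iff.1 K_re
  exact ⟨q, hq, h⟩

/-- the decidable approximation -/
noncomputable def ap : ℕ → ℕ → Bool := exists_stage.choose

theorem ap_comp : Computable₂ ap := exists_stage.choose_spec.1

theorem ap_spec (e : ℕ) : K e ↔ ∃ s, ap e s = true := exists_stage.choose_spec.2 e

open Classical in
/-- the stage -/
noncomputable def st (e : ℕ) : ℕ := if h : ∃ s, ap e s = true then Nat.find h else 0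

/-- the points of the space of twins -/
def TY : Type := {n : ℕ // n % 2 = 0 ∨ K (n / 2)}

open Classical in
/-- the distance of the space of twins -/
noncomputable def td (x y : ℕ) : ℝ :=
  if x = y then 0 else if x / 2 = y / 2 then (1 / 2) ^ st (x / 2) else 1

theorem td_self (x : ℕ) : td x x = 0 := by unfold td; simp

theorem td_comm (x y : ℕ) : td x y = td y x := by
  unfold td
  by_cases h : x = y
  · subst h; rfl
  · rw [if_neg h, if_neg (Ne.symm h)]
    by_cases h2 : x / 2 = y / 2
    · rw [if_pos h2, if_pos h2.symm, h2]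
    · rw [if_neg h2, if_neg (Ne.symm h2)]

theorem td_pos {x y : ℕ} (h : x ≠ y) : 0 < td x y := by
  unfold td
  rw [if_neg h]
  split_ifs
  · positivity
  · norm_num

theorem td_le_one (x y : ℕ) : td x y ≤ 1 := by
  unfold td
  split_ifs
  · norm_num
  · exact pow_le_one₀ (by norm_num) (by norm_num)
  · exact le_refl _

theorem td_nonneg (x y : ℕ) : 0 ≤ td x y := by
  by_cases h : x = y
  · subst h; rw [td_self]
  · exact (td_pos h).le

theorem td_tri (x y z : ℕ) : td x z ≤ td x y + td y z := by
  by_cases h1 : x = y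
  · subst h1; rw [td_self, zero_add]
  by_cases h2 : y = z
  · subst h2; rw [td_self, add_zero]
  by_cases h3 : x = z
  · subst h3; rw [td_self]; exact add_nonneg (td_nonneg _ _) (td_nonneg _ _)
  by_cases h4 : x / 2 = y / 2
  · by_cases h5 : y / 2 = z / 2
    · exfalso; omega
    · have : td y z = 1 := by unfold td; rw [if_neg h2, if_neg h5]
      rw [this]
      have h6 := td_le_one x z
      have h7 := td_nonneg x y
      linarith
  · have : td x y = 1 := by unfold td; rw [if_neg h1, if_neg h4]
    rw [this]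
    have h6 := td_le_one x z
    have h7 := td_nonneg y z
    linarith

noncomputable instance : MetricSpace TY where
  dist x y := td x.1 y.1
  dist_self x := td_self _
  dist_comm x y := td_comm _ _
  dist_triangle x y z := td_tri _ _ _
  eq_of_dist_eq_zero {x y} h := by
    by_contra hne
    have h1 : x.1 ≠ y.1 := fun h => hne (Subtype.ext h)
    exact absurd h (td_pos h1).ne'

theorem dist_def (x y : TY) : dist x y = td x.1 y.1 := rfl

theorem close_eq {x y : TY} {e : ℕ} (he : x.1 / 2 = e) (h : dist x y < (1 / 2) ^ st e) :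
    x = y := by
  by_contra hne
  have h1 : x.1 ≠ y.1 := fun h => hne (Subtype.ext h)
  rw [dist_def] at h
  unfold td at h
  rw [if_neg h1] at h
  split_ifs at h with h2
  · rw [he] at h; exact lt_irrefl _ h
  · have : ((1 : ℝ) / 2) ^ st e ≤ 1 := pow_le_one₀ (by norm_num) (by norm_num)
    linarith

instance : DiscreteTopology TY := by
  rw [discreteTopology_iff_isOpen_singleton]
  intro x
  rw [Metric.isOpen_singleton_iff]
  refine ⟨(1 / 2) ^ st (x.1 / 2), by positivity, fun y hy => ?_⟩
  rw [dist_comm] at hy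
  exact (close_eq rfl hy).symm

instance : CompleteSpace TY := by
  refine Metric.complete_of_cauchySeq_tendsto fun u hu => ?_
  rw [Metric.cauchySeq_iff'] at hu
  obtain ⟨N1, hN1⟩ := hu 1 one_pos
  set e := (u N1).1 / 2 with he
  have h1 : ∀ n ≥ N1, (u n).1 / 2 = e := by
    intro n hn
    by_contra hne
    have h2 := hN1 n hn
    rw [dist_def] at h2
    unfold td at h2
    rw [if_neg (fun h => hne (by rw [h])), if_neg hne] at h2
    exact lt_irrefl _ h2
  obtain ⟨N2, hN2⟩ := hu ((1 / 2) ^ st e * (1 / 2)) (by positivity)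
  refine ⟨u (max N1 N2), ?_⟩
  refine tendsto_const_nhds.congr' ?_
  filter_upwards [Filter.eventually_ge_atTop (max N1 N2)] with n hn
  have h3 := hN2 n (le_trans (le_max_right _ _) hn)
  have h4 := hN2 (max N1 N2) (le_max_right _ _)
  refine close_eq (h1 _ (le_max_left _ _)) ?_
  calc dist (u (max N1 N2)) (u n) ≤ dist (u (max N1 N2)) (u N2) + dist (u n) (u N2) :=
        dist_triangle_right _ _ _
    _ < (1 / 2) ^ st e * (1 / 2) + (1 / 2) ^ st e * (1 / 2) := add_lt_add h4 h3
    _ = (1 / 2) ^ st e := by ring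

open Classical in
/-- the dense sequence of the space of twins -/
noncomputable def tc (n : ℕ) : TY :=
  if h : n % 2 = 0 ∨ K (n / 2) then ⟨n, h⟩ else ⟨n - 1, by left; omega⟩

theorem tc_surj : Function.Surjective tc := by
  intro x
  refine ⟨x.1, ?_⟩
  unfold tc
  rw [dif_pos x.2]
  rfl

theorem tc_val_div (n : ℕ) : (tc n).1 / 2 = n / 2 := by
  unfold tc
  by_cases h : n % 2 = 0 ∨ K (n / 2)
  · rw [dif_pos h]
  · rw [dif_neg h]
    show (n - 1) / 2 = n / 2
    omega

theorem tc_eq_iff (e : ℕ) : tc (2 * e) = tc (2 * e + 1) ↔ ¬ K e := by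
  unfold tc
  rw [dif_pos (by left; omega)]
  have h1 : (2 * e + 1) / 2 = e := by omega
  by_cases h : K e
  · rw [dif_pos (by right; rw [h1]; exact h)]
    constructor
    · intro h2
      have := congrArg Subtype.val h2
      simp at this
    · intro h2; exact absurd h h2
  · rw [dif_neg (by rw [h1]; rintro (h2 | h2); · omega
                    · exact h h2)]
    constructor
    · intro _; exact h
    · intro _; exact Subtype.ext (by simp)

theorem st_spec {e : ℕ} (h : K e) : ap e (st e) = true ∧ ∀ s < st e, ap e s ≠ true := by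
  classical
  have h1 := (ap_spec e).1 h
  unfold st
  rw [dif_pos h1]
  exact ⟨Nat.find_spec h1, fun s hs => Nat.find_min h1 hs⟩

/-- numerators of the approximations of the distance of twins -/
noncomputable def w (e k : ℕ) : ℕ :=
  Nat.rec (bif ap e 0 then 1 else 0)
    (fun k v => bif decide (v = 0) then (bif ap e (k + 1) then 1 else 0) else 2 * v) k

theorem w_zero (e : ℕ) : w e 0 = bif ap e 0 then 1 else 0 := rfl

theorem w_succ (e k : ℕ) : w e (k + 1) = bif decide (w e k = 0) then
    (bif ap e (k + 1) then 1 else 0) else 2 * w e k := rfl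

theorem w_eq {e k : ℕ} (h : K e) (hk : st e ≤ k) : w e k = 2 ^ (k - st e) := by
  induction k with
  | zero =>
    have h1 : st e = 0 := by omega
    have h2 := (st_spec h).1
    rw [h1] at h2 ⊢
    rw [w_zero, h2]
    rfl
  | succ k ih =>
    by_cases h1 : st e ≤ k
    · have h2 := ih h1
      have h3 : w e k ≠ 0 := by rw [h2]; positivity
      rw [w_succ, decide_eq_false h3, h2]
      have h4 : k + 1 - st e = (k - st e) + 1 := by omega
      rw [h4, pow_succ, mul_comm]
      rfl
    · have h2 : st e = k + 1 := by omega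
      have h3 : ∀ j, j ≤ k → w e j = 0 := by
        intro j hj
        induction j with
        | zero =>
          have := (st_spec h).2 0 (by omega)
          rw [ne_eq, Bool.not_eq_true] at this
          rw [w_zero, this]
          rfl
        | succ j ihj =>
          have := (st_spec h).2 (j + 1) (by omega)
          rw [ne_eq, Bool.not_eq_true] at this
          rw [w_succ, ihj (by omega), this]
          rfl
      have h4 := (st_spec h).1
      rw [h2] at h4
      rw [w_succ, h3 k le_rfl, h4, h2, Nat.sub_self]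
      rfl

theorem w_zero' {e k : ℕ} (h : ¬ (K e ∧ st e ≤ k)) : w e k = 0 := by
  have h1 : ∀ j ≤ k, ap e j = false := by
    intro j hj
    by_contra h2
    rw [Bool.not_eq_false] at h2
    have hK : K e := (ap_spec e).2 ⟨j, h2⟩
    refine h ⟨hK, ?_⟩
    by_contra h3
    exact (st_spec hK).2 j (by omega) h2
  have h2 : ∀ j ≤ k, w e j = 0 := by
    intro j hj
    induction j with
    | zero => rw [w_zero, h1 0 hj]; rfl
    | succ j ih => rw [w_succ, ih (by omega), h1 _ hj]; rfl
  exact h2 k le_rfl

theorem w_comp : Computable₂ w := by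
  have h1 : Computable fun x : ℕ × ℕ => (bif ap x.1 0 then 1 else 0 : ℕ) :=
    ccond (ap_comp.comp Computable.fst (Computable.const 0)) (Computable.const 1)
      (Computable.const 0)
  have h2 : Computable₂ fun (x : ℕ × ℕ) (y : ℕ × ℕ) =>
      (bif decide (y.2 = 0) then (bif ap x.1 (y.1 + 1) then 1 else 0) else 2 * y.2 : ℕ) := by
    have k1 : Computable fun z : (ℕ × ℕ) × (ℕ × ℕ) => decide (z.2.2 = 0) :=
      cdecide (cp_eq (by fun_prop) (Computable.const 0))
    have k2 : Computable fun z : (ℕ × ℕ) × (ℕ × ℕ) => ap z.1.1 (z.2.1 + 1) :=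
      ap_comp.comp (Computable.fst.comp Computable.fst)
        (Computable.succ.comp (Computable.fst.comp Computable.snd))
    have k3 : Computable fun z : (ℕ × ℕ) × (ℕ × ℕ) => 2 * z.2.2 :=
      Primrec.nat_mul.to_comp.comp (Computable.const 2) (Computable.snd.comp Computable.snd)
    exact ccond k1 (ccond k2 (Computable.const 1) (Computable.const 0)) k3
  exact Computable.nat_rec (f := fun x : ℕ × ℕ => x.2) Computable.snd h1 h2

open Classical in
theorem sep {i j : ℕ} (hij : i ≠ j) (h : i / 2 = j / 2) :
    dist (tc i) (tc j) = if K (i / 2) then (1 / 2) ^ st (i / 2) else 0 := by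
  have h0 : (i = 2 * (i / 2) ∧ j = 2 * (i / 2) + 1) ∨ (j = 2 * (i / 2) ∧ i = 2 * (i / 2) + 1) := by
    omega
  have key : dist (tc (2 * (i / 2))) (tc (2 * (i / 2) + 1)) =
      if K (i / 2) then (1 / 2) ^ st (i / 2) else 0 := by
    by_cases hK : K (i / 2)
    · rw [if_pos hK]
      have h1 : tc (2 * (i / 2)) ≠ tc (2 * (i / 2) + 1) := fun h2 =>
        (tc_eq_iff _).1 h2 hK
      rw [dist_def]
      unfold td
      rw [if_neg (fun h2 => h1 (Subtype.ext h2)), if_pos, tc_val_div]
      · congr 2; omega
      · rw [tc_val_div, tc_val_div]; omega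
    · rw [if_neg hK, (tc_eq_iff _).2 hK, dist_self]
  rcases h0 with ⟨h1, h2⟩ | ⟨h1, h2⟩
  · rw [← key, ← h2, ← h1]
  · rw [← key, ← h2, ← h1, dist_comm]

theorem far {i j : ℕ} (h : i / 2 ≠ j / 2) : dist (tc i) (tc j) = 1 := by
  rw [dist_def]
  unfold td
  rw [if_neg, if_neg]
  · rw [tc_val_div, tc_val_div]; exact h
  · intro h1
    apply h
    rw [← tc_val_div i, h1, tc_val_div]

/-- the space of twins -/
noncomputable def Twin : CMS where
  Y := TY
  c := tc
  dense := tc_surj.denseRange
  comp := by
    classical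
    refine ⟨fun x => bif decide (x.1 = x.2.1) then 0 else
      bif decide (x.1 / 2 = x.2.1 / 2) then w (x.1 / 2) x.2.2 else 2 ^ x.2.2, ?_, ?_⟩
    · have hpow : Primrec fun n : ℕ => 2 ^ n := by
        have := (Primrec.nat_rec' (f := fun n : ℕ => n) (g := fun _ => 1)
          (h := fun _ (p : ℕ × ℕ) => 2 * p.2) Primrec.id (Primrec.const 1)
          (Primrec.nat_mul.comp (Primrec.const 2) (Primrec.snd.comp Primrec.snd)))
        refine this.of_eq fun n => ?_
        induction n with
        | zero => rfl
        | succ n ih => rw [pow_succ, mul_comm]; simp only at ih ⊢; rw [ih]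
      have h1 : Computable fun x : ℕ × ℕ × ℕ => x.1 := Computable.fst
      have h2 : Computable fun x : ℕ × ℕ × ℕ => x.2.1 := Computable.fst.comp Computable.snd
      have h3 : Computable fun x : ℕ × ℕ × ℕ => x.2.2 := Computable.snd.comp Computable.snd
      have hd : Computable fun n : ℕ => n / 2 := (Primrec.nat_div2.to_comp).of_eq fun n =>
        Nat.div2_val n
      exact ccond (cdecide (cp_eq h1 h2)) (Computable.const 0)
        (ccond (cdecide (cp_eq (hd.comp h1) (hd.comp h2))) (w_comp.comp (hd.comp h1) h3)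
          (hpow.to_comp.comp h3))
    · intro i j k
      dsimp only
      have hk : (0 : ℝ) ≤ 1 / 2 ^ k := by positivity
      by_cases h1 : i = j
      · subst h1
        simp
      · rw [decide_eq_false h1, cond_false]
        by_cases h2 : i / 2 = j / 2
        · rw [decide_eq_true h2, cond_true, sep h1 h2]
          by_cases h3 : K (i / 2)
          · rw [if_pos h3]
            by_cases h4 : st (i / 2) ≤ k
            · rw [w_eq h3 h4]
              have h5 : ((2 ^ (k - st (i / 2)) : ℕ) : ℝ) / 2 ^ k = (1 / 2) ^ st (i / 2) := by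
                have h6 : (2 : ℝ) ^ k = 2 ^ (k - st (i / 2)) * 2 ^ st (i / 2) := by
                  rw [← pow_add]; congr 1; omega
                push_cast
                rw [h6, div_pow, one_pow]
                field_simp
              rw [h5, sub_self, abs_zero]
              exact hk
            · rw [w_zero' (fun h => h4 h.2)]
              have h5 : ((1 : ℝ) / 2) ^ st (i / 2) ≤ (1 / 2) ^ k :=
                pow_le_pow_of_le_one (by norm_num) (by norm_num) (by omega)
              have h6 : ((1 : ℝ) / 2) ^ k = 1 / 2 ^ k := by rw [div_pow, one_pow]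
              rw [Nat.cast_zero, zero_div, sub_zero, abs_of_nonneg (by positivity), ← h6]
              exact h5
          · rw [if_neg h3, w_zero' (fun h => h3 h.1)]
            simp
        · rw [decide_eq_false h2, cond_false, far h2]
          push_cast
          rw [div_self (by positivity), sub_self, abs_zero]
          exact hk

theorem twin_homeo : Nonempty (Twin.Y ≃ₜ ℕ) := by
  have h1 : Infinite TY := by
    refine Infinite.of_injective (fun n : ℕ => (⟨2 * n, by left; omega⟩ : TY)) fun a b h => ?_
    have := congrArg Subtype.val h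
    simp only at this
    omega
  have h2 : Countable TY := by unfold TY; infer_instance
  obtain ⟨e⟩ := nonempty_equiv_of_countable (α := TY) (β := ℕ)
  have h3 : DiscreteTopology Twin.Y := inferInstanceAs (DiscreteTopology TY)
  exact ⟨{ toEquiv := e
           continuous_toFun := continuous_of_discreteTopology
           continuous_invFun := continuous_of_discreteTopology }⟩

theorem std_homeo : Nonempty (Std.Y ≃ₜ ℕ) := ⟨Homeomorph.refl ℕ⟩

theorem std_name {p : ℕ → ℕ} {x : ℕ} (h : IsName Std p x) : p 2 = x := by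
  have h1 : dist (p 2) x ≤ 1 / 2 ^ 2 := h 2
  rw [Nat.dist_eq] at h1
  by_contra hne
  have h2 : (1 : ℝ) ≤ |(p 2 : ℝ) - x| := by
    have h3 : (1 : ℤ) ≤ |(p 2 : ℤ) - x| := by
      apply Int.one_le_abs
      intro h4
      apply hne
      have h5 : (p 2 : ℤ) = x := by linarith
      exact_mod_cast h5
    exact_mod_cast h3
  norm_num at h1
  linarith

theorem twin_name (n : ℕ) : IsName Twin (fun _ => n) (tc n) := by
  intro k
  show dist (tc n) (tc n) ≤ _
  rw [dist_self]
  positivity

theorem lower {a : ℕ → ℕ} (h : Cat ℕ a) : Red (chi K) a := by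
  obtain ⟨g, φ, hφ, hg⟩ := h Twin Std twin_homeo std_homeo
  have hG := graph_re hφ
  -- values
  have hval : ∀ n v : ℕ, (∃ k, v ∈ φ (pre (fun _ => n) k, 2)) ↔ v = (g (tc n) : ℕ) := by
    intro n v
    obtain ⟨q, hq, hq2⟩ := hg (tc n) (fun _ => n) (twin_name n)
    have h1 : q 2 = g (tc n) := std_name hq
    constructor
    · rintro ⟨k, hk⟩
      rw [← h1]
      exact (hq2 2).2 k v hk
    · rintro rfl
      obtain ⟨k, hk⟩ := (hq2 2).1
      rw [h1] at hk
      exact ⟨k, hk⟩
  have hpre : Computable fun x : ℕ × ℕ => pre (fun _ => x.1) x.2 :=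
    (Primrec.list_map (Primrec.list_range.comp Primrec.snd)
      (Primrec.fst.comp Primrec.fst).to₂).to_comp
  have hV : REIn (gr a) fun x : ℕ × ℕ => x.2 = (g (tc x.1) : ℕ) := by
    have h1 : REIn (gr a) fun x : ℕ × ℕ => ∃ k, x.2 ∈ φ (pre (fun _ => x.1) k, 2) := by
      refine REIn.ex (S := fun (x : ℕ × ℕ) (k : ℕ) => x.2 ∈ φ (pre (fun _ => x.1) k, 2)) ?_
      refine hG.comp (f := fun x : (ℕ × ℕ) × ℕ => ((pre (fun _ => x.1.1) x.2, 2), x.1.2)) ?_
      exact ((hpre.comp ((Computable.fst.comp Computable.fst).pair Computable.snd)).pair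
        (Computable.const 2)).pair (Computable.snd.comp Computable.fst)
    exact h1.of_eq fun x => hval _ _
  have hc1 : Computable fun e : ℕ => 2 * e :=
    Primrec.nat_mul.to_comp.comp (Computable.const 2) Computable.id
  have hc2 : Computable fun e : ℕ => 2 * e + 1 := Computable.succ.comp hc1
  have hK : ∀ e, K e ↔ (g (tc (2 * e)) : ℕ) ≠ g (tc (2 * e + 1)) := by
    intro e
    constructor
    · intro h1 h2
      exact (tc_eq_iff e).1 (g.injective h2) h1
    · intro h1
      by_contra h2
      exact h1 (by rw [(tc_eq_iff e).2 h2])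
  refine red_of_re ?_ ?_
  · have h1 : REIn (gr a) fun e : ℕ => ∃ v : ℕ × ℕ, (v.1 = (g (tc (2 * e)) : ℕ) ∧
        v.2 = (g (tc (2 * e + 1)) : ℕ)) ∧ v.1 ≠ v.2 := by
      refine REIn.ex (S := fun (e : ℕ) (v : ℕ × ℕ) => (v.1 = (g (tc (2 * e)) : ℕ) ∧
        v.2 = (g (tc (2 * e + 1)) : ℕ)) ∧ v.1 ≠ v.2) ?_
      refine REIn.and (REIn.and ?_ ?_) (REIn.of_re (RE.ne (by fun_prop) (by fun_prop)))
      · exact hV.comp (f := fun x : ℕ × (ℕ × ℕ) => (2 * x.1, x.2.1))
          ((hc1.comp Computable.fst).pair (Computable.fst.comp Computable.snd))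
      · exact hV.comp (f := fun x : ℕ × (ℕ × ℕ) => (2 * x.1 + 1, x.2.2))
          ((hc2.comp Computable.fst).pair (Computable.snd.comp Computable.snd))
    refine h1.of_eq fun e => ?_
    rw [hK]
    constructor
    · rintro ⟨v, ⟨h2, h3⟩, h4⟩
      rwa [h2, h3] at h4
    · intro h2
      exact ⟨(_, _), ⟨rfl, rfl⟩, h2⟩
  · have h1 : REIn (gr a) fun e : ℕ => ∃ v : ℕ × ℕ, (v.1 = (g (tc (2 * e)) : ℕ) ∧
        v.2 = (g (tc (2 * e + 1)) : ℕ)) ∧ v.1 = v.2 := by
      refine REIn.ex (S := fun (e : ℕ) (v : ℕ × ℕ) => (v.1 = (g (tc (2 * e)) : ℕ) ∧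
        v.2 = (g (tc (2 * e + 1)) : ℕ)) ∧ v.1 = v.2) ?_
      refine REIn.and (REIn.and ?_ ?_) (REIn.of_re (RE.eq (by fun_prop) (by fun_prop)))
      · exact hV.comp (f := fun x : ℕ × (ℕ × ℕ) => (2 * x.1, x.2.1))
          ((hc1.comp Computable.fst).pair (Computable.fst.comp Computable.snd))
      · exact hV.comp (f := fun x : ℕ × (ℕ × ℕ) => (2 * x.1 + 1, x.2.2))
          ((hc2.comp Computable.fst).pair (Computable.snd.comp Computable.snd))
    refine h1.of_eq fun e => ?_
    rw [hK, not_not]
    constructor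
    · rintro ⟨v, ⟨h2, h3⟩, h4⟩
      rwa [h2, h3] at h4
    · intro h2
      exact ⟨(_, _), ⟨rfl, rfl⟩, h2⟩

end Pool.Agent.TH742.TC
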