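import Pool.Agent.H109R3.TC.Stmt
import Pool.Agent.Helper578.JD.Core

set_option autoImplicit false

/-!
The halting set and general facts about oracle computations.
-/

namespace Pool.Agent.TH742.TC

open Encodable Pool.Agent.Helper578.JD.Oracle
open Pool.Agent.Helper578.JD hiding Red
open Pool.Agent.Helper578.JD.RE
open Nat.Partrec (Code)
open Pool.Agent.Helper583.TC (Red orc)

/-- The halting set: `x = (e, n)` is in `K` if the `e`-th program halts on the input `n`. -/
def K (x : ℕ) : Prop := ((Denumerable.ofNat Code x.unpair.1).eval x.unpair.2).Dom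

/-- The characteristic function of a set. -/
noncomputable def chi (A : ℕ → Prop) (n : ℕ) : ℕ :=
  open Classical in if A n then 1 else 0

theorem K_re : REPred K := by
  refine RE.comp W_re (f := fun x : ℕ => (x.unpair.1, x.unpair.2)) (by fun_prop)

theorem orc_chi (A : ℕ → Prop) : orc (chi A) = Defs.chi {x | A x} := by
  funext n
  rfl

theorem many_one {α : Type} [Primcodable α] {P : α → Prop} (hP : REPred P) :
    ∃ f : α → ℕ, Computable f ∧ ∀ a, P a ↔ K (f a) := by
  have h1 : Nat.Partrec fun n => Part.bind ((decode (α := α) n : Option α) : Part α)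
      fun a => (Part.assert (P a) fun _ => Part.some ()).map encode := hP
  obtain ⟨c, hc⟩ := Code.exists_code.1 h1
  refine ⟨fun a => Nat.pair (encode c) (encode a), cnatpair (Computable.const _)
    Computable.encode, fun a => ?_⟩
  unfold K
  rw [Nat.unpair_pair]
  dsimp only
  rw [Denumerable.ofNat_encode, hc]
  simp [Part.assert]

theorem K_complete {A : ℕ → Prop} (hA : REPred A) : Red (chi A) (chi K) := by
  obtain ⟨f, hf, h⟩ := many_one hA
  unfold Red
  rw [orc_chi K]
  have h1 : TotIn {x | K x} (Defs.chiN {x | K x}) := TotIn.chi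
  have h2 := h1.comp (TotIn.of_comp (A := {x | K x}) hf)
  refine Nat.RecursiveIn.of_eq h2 fun n => ?_
  show Part.some (Defs.chiN {x | K x} (f n)) = Part.some (chi A n)
  congr 1
  unfold chi
  by_cases hA : A n
  · rw [if_pos hA]
    exact chiN_eq_one.2 ((h n).1 hA)
  · rw [if_neg hA]
    exact chiN_eq_zero.2 fun h' => hA ((h n).2 h')

/-- c.e. predicates and their complements are enumerable relative to `K` -/
theorem both {α : Type} [Primcodable α] {P : α → Prop} (hP : REPred P) :
    REIn {x | K x} P ∧ REIn {x | K x} fun a => ¬ P a := by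
  obtain ⟨f, hf, h⟩ := many_one hP
  refine ⟨REIn.of_re hP, (REIn.not_mem (A := {x | K x}) hf).of_eq fun a => ?_⟩
  rw [Set.mem_ofPred_eq, h a]

/-- A partial function given by a total function with values in an option type, whose graph is
enumerable relative to `A`. -/
theorem recIn_option {α : Type} [Primcodable α] {A : Set ℕ} {f : α → Option ℕ}
    (h : REIn A fun x : α × Option ℕ => f x.1 = x.2) :
    RecursiveIn {Defs.chi A} fun a => ((f a : Option ℕ) : Part ℕ) := by
  let g : ℕ → ℕ := fun n => encode ((decode (α := α) n).bind f)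
  have hg : TotIn A g := by
    apply recursiveIn_of_graph
    have h1 : REIn A fun p : ℕ × ℕ => (∃ x : α × Option ℕ, decode (α := α) p.1 = some x.1 ∧
        f x.1 = x.2 ∧ encode x.2 = p.2) ∨ (decode (α := α) p.1 = none ∧ p.2 = 0) := by
      refine REIn.or ?_ (REIn.and (REIn.of_re (RE.eq (Computable.decode.comp Computable.fst)
        (Computable.const _))) (REIn.of_re (RE.eq (by fun_prop) (by fun_prop))))
      refine REIn.ex (S := fun (p : ℕ × ℕ) (x : α × Option ℕ) =>
        decode (α := α) p.1 = some x.1 ∧ f x.1 = x.2 ∧ encode x.2 = p.2) ?_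
      refine REIn.and (REIn.of_re (RE.eq ?_ ?_)) (REIn.and ?_ (REIn.of_re (RE.eq ?_ ?_)))
      · exact Computable.decode.comp (Computable.fst.comp Computable.fst)
      · exact Computable.option_some.comp (Computable.fst.comp Computable.snd)
      · exact h.comp (f := fun x : (ℕ × ℕ) × (α × Option ℕ) => x.2) Computable.snd
      · exact Computable.encode.comp (Computable.snd.comp Computable.snd)
      · exact Computable.snd.comp Computable.fst
    refine h1.of_eq fun p => ?_
    show _ ↔ encode ((decode (α := α) p.1).bind f) = p.2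
    cases hd : decode (α := α) p.1 with
    | none => simp [eq_comm]
    | some a =>
      constructor
      · rintro (⟨x, hx1, hx2, hx3⟩ | ⟨hx, -⟩)
        · cases hx1
          simp only [Option.bind_some]
          rw [hx2]; exact hx3
        · cases hx
      · intro hx
        exact Or.inl ⟨(a, f a), rfl, rfl, hx⟩
  have h2 : Nat.Partrec fun m => ((decode (α := Option ℕ) m).bind id : Part ℕ) := by
    rw [← Partrec.nat_iff]
    exact Computable.ofOption (Computable.option_bind Computable.decode Computable.snd)
  unfold RecursiveIn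
  refine Nat.RecursiveIn.of_eq (Nat.RecursiveIn.comp (Nat.Partrec.recursiveIn h2) hg) fun n => ?_
  simp only [Part.bind_eq_bind, Part.bind_some, g]
  rw [encodek]
  cases hd : decode (α := α) n with
  | none => simp
  | some a =>
    simp only [Option.bind_some, Part.coe_some, Part.bind_some]
    cases f a with
    | none => simp
    | some v => simp [Part.map_some]

/-! ### function oracles -/

/-- the graph of a function -/
def gr (a : ℕ → ℕ) : Set ℕ := {x | a x.unpair.1 = x.unpair.2}

theorem orc_of_gr (a : ℕ → ℕ) : Nat.RecursiveIn {Defs.chi (gr a)} (orc a) := by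
  refine recursiveIn_of_graph (A := gr a) (f := a) ?_
  refine (REIn.mem (A := gr a) (f := fun p : ℕ × ℕ => Nat.pair p.1 p.2)
    (by fun_prop)).of_eq fun p => ?_
  unfold gr
  rw [Set.mem_ofPred_eq, Nat.unpair_pair]

theorem gr_of_orc (a : ℕ → ℕ) : Nat.RecursiveIn {orc a} (Defs.chi (gr a)) := by
  have h1 : Nat.RecursiveIn {orc a} (orc a) := Nat.RecursiveIn.oracle _ rfl
  have h2 : Nat.RecursiveIn {orc a} fun n : ℕ => Part.some n.unpair.1 :=
    Nat.Partrec.recursiveIn (Partrec.nat_iff.1 (Computable.partrec
      (by fun_prop : Computable fun n : ℕ => n.unpair.1)))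
  have h3 : Nat.RecursiveIn {orc a} fun n : ℕ => Part.some n.unpair.2 :=
    Nat.Partrec.recursiveIn (Partrec.nat_iff.1 (Computable.partrec
      (by fun_prop : Computable fun n : ℕ => n.unpair.2)))
  have h4 := Nat.RecursiveIn.pair (Nat.RecursiveIn.comp h1 h2) h3
  have h5 : Nat.RecursiveIn {orc a} fun n : ℕ =>
      Part.some (bif decide (n.unpair.1 = n.unpair.2) then 1 else 0) :=
    Nat.Partrec.recursiveIn (Partrec.nat_iff.1 (Computable.partrec
      (ccond (cdecide (cp_eq (by fun_prop) (by fun_prop))) (Computable.const 1)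
        (Computable.const 0))))
  refine Nat.RecursiveIn.of_eq (Nat.RecursiveIn.comp h5 h4) fun n => ?_
  unfold orc
  simp only [Part.bind_eq_bind, Part.bind_some, Seq.seq, Part.map_eq_map, Part.map_some,
    Part.bind_some, Nat.unpair_pair]
  unfold Defs.chi
  congr 1
  by_cases h : a n.unpair.1 = n.unpair.2
  · rw [chiN_eq_one.2 (show n ∈ gr a from h)]
    simp [h]
  · rw [chiN_eq_zero.2 (show n ∉ gr a from h)]
    simp [h]

/-- The graph of a partial function computable with the oracle `a` is enumerable. -/
theorem graph_re {α : Type} [Primcodable α] {a : ℕ → ℕ} {φ : α →. ℕ}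
    (h : RecursiveIn {orc a} φ) : REIn (gr a) fun x : α × ℕ => x.2 ∈ φ x.1 := by
  have h1 : Nat.RecursiveIn {Defs.chi (gr a)} fun n => Part.bind (decode (α := α) n)
      fun b => (φ b).map encode := by
    refine Nat.RecursiveIn.subst h fun g hg => ?_
    rw [Set.mem_singleton_iff] at hg
    subst hg
    exact orc_of_gr a
  refine ((graph_of_recursiveIn h1).comp (f := fun x : α × ℕ => (encode x.1, x.2))
    ((Computable.encode.comp Computable.fst).pair Computable.snd)).of_eq fun x => ?_
  simp

/-- A set is computable from `a` if it and its complement are enumerable relative to `a`. -/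
theorem red_of_re {A : ℕ → Prop} {a : ℕ → ℕ} (h1 : REIn (gr a) A)
    (h2 : REIn (gr a) fun n => ¬ A n) : Red (chi A) a := by
  have h3 : TuringReducible (Defs.chi {x | A x}) (Defs.chi (gr a)) :=
    turingReducible_iff.2 ⟨h1, h2⟩
  rw [TuringReducible, RecursiveIn.iff_nat] at h3
  unfold Red
  rw [orc_chi]
  refine Nat.RecursiveIn.subst h3 fun g hg => ?_
  rw [Set.mem_singleton_iff] at hg
  subst hg
  exact gr_of_orc a

end Pool.Agent.TH742.TC
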