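import Pool.Agent.TH742.TC.Rel

set_option autoImplicit false

/-!
The discrete space `ℕ` is categorical relative to the halting set.
-/

namespace Pool.Agent.TH742.TC

open Encodable Pool.Agent.Helper578.JD.Oracle
open Pool.Agent.Helper578.JD hiding Red
open Pool.Agent.Helper578.JD.RE
open Nat.Partrec (Code)
open Pool.Agent.Helper583.TC (Red orc)
open Pool.Agent.Helper583.TT (CMS IsName pre)
open Pool.Agent.H109R3.TC

/-- different indices of points -/
theorem pos_re (M : CMS) : REPred fun x : ℕ × ℕ => M.c x.1 ≠ M.c x.2 := by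
  obtain ⟨q, hq, h⟩ := M.comp
  have h1 : REPred fun x : ℕ × ℕ => ∃ k : ℕ, 1 < q (x.1, x.2, k) := by
    refine RE.exN (p := fun (x : ℕ × ℕ) (k : ℕ) => 1 < q (x.1, x.2, k)) ?_
    exact RE.lt (Computable.const 1) (hq.comp (by fun_prop))
  refine h1.of_eq fun x => ?_
  rw [← dist_pos]
  constructor
  · rintro ⟨k, hk⟩
    have h2 := (abs_le.1 (h x.1 x.2 k)).1
    have h3 : (0 : ℝ) < 2 ^ k := by positivity
    have h4 : (2 : ℝ) ≤ q (x.1, x.2, k) := by exact_mod_cast hk
    have h5 : (2 : ℝ) / 2 ^ k ≤ (q (x.1, x.2, k) : ℝ) / 2 ^ k := by gcongr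
    have h6 : (2 : ℝ) / 2 ^ k = 1 / 2 ^ k + 1 / 2 ^ k := by ring
    have h7 : (0 : ℝ) < 1 / 2 ^ k := by positivity
    linarith
  · intro hd
    obtain ⟨k, hk⟩ := exists_pow_lt_of_lt_one (half_pos hd) (by norm_num : (1 / 2 : ℝ) < 1)
    refine ⟨k, ?_⟩
    have h2 := (abs_le.1 (h x.1 x.2 k)).2
    have h3 : (0 : ℝ) < 2 ^ k := by positivity
    rw [one_div, inv_pow] at hk
    by_contra hq1
    rw [not_lt] at hq1
    have h4 : (q (x.1, x.2, k) : ℝ) ≤ 1 := by exact_mod_cast hq1
    have h5 : (q (x.1, x.2, k) : ℝ) / 2 ^ k ≤ 1 / 2 ^ k := by gcongr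
    have h6 : (1 : ℝ) / 2 ^ k = (2 ^ k)⁻¹ := one_div _
    linarith

/-- close points -/
theorem close_re (M : CMS) : REPred fun x : (ℕ × ℕ) × ℕ =>
    dist (M.c x.1.1) (M.c x.1.2) < 2 / 2 ^ x.2 := by
  obtain ⟨q, hq, h⟩ := M.comp
  have hpow : Computable fun n : ℕ => 2 ^ n := by
    have := (Primrec.nat_rec' (f := fun n : ℕ => n) (g := fun _ => 1)
      (h := fun _ (p : ℕ × ℕ) => 2 * p.2) Primrec.id (Primrec.const 1)
      (Primrec.nat_mul.comp (Primrec.const 2) (Primrec.snd.comp Primrec.snd))).to_comp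
    refine this.of_eq fun n => ?_
    induction n with
    | zero => rfl
    | succ n ih => rw [pow_succ, mul_comm]; simp only at ih ⊢; rw [ih]
  have h1 : REPred fun x : (ℕ × ℕ) × ℕ => ∃ k : ℕ,
      (q (x.1.1, x.1.2, k) + 1) * 2 ^ x.2 < 2 * 2 ^ k := by
    refine RE.exN (p := fun (x : (ℕ × ℕ) × ℕ) (k : ℕ) =>
      (q (x.1.1, x.1.2, k) + 1) * 2 ^ x.2 < 2 * 2 ^ k) ?_
    refine RE.lt ?_ ?_
    · exact (Primrec.nat_mul.to_comp).comp
        (Primrec.succ.to_comp.comp (hq.comp (by fun_prop)))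
        (hpow.comp (by fun_prop))
    · exact (Primrec.nat_mul.to_comp).comp (Computable.const 2) (hpow.comp (by fun_prop))
  refine h1.of_eq fun x => ?_
  have hiff : ∀ k : ℕ, (q (x.1.1, x.1.2, k) + 1) * 2 ^ x.2 < 2 * 2 ^ k ↔
      ((q (x.1.1, x.1.2, k) : ℝ) + 1) / 2 ^ k < 2 / 2 ^ x.2 := by
    intro k
    rw [div_lt_div_iff₀ (by positivity) (by positivity)]
    constructor
    · intro h; exact_mod_cast h
    · intro h; exact_mod_cast h
  constructor
  · rintro ⟨k, hk⟩
    rw [hiff] at hk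
    have h2 := (abs_le.1 (h x.1.1 x.1.2 k)).2
    have h3 : ((q (x.1.1, x.1.2, k) : ℝ) + 1) / 2 ^ k =
      (q (x.1.1, x.1.2, k) : ℝ) / 2 ^ k + 1 / 2 ^ k := by ring
    linarith
  · intro hd
    obtain ⟨k, hk⟩ := exists_pow_lt_of_lt_one
      (half_pos (sub_pos.2 hd)) (by norm_num : (1 / 2 : ℝ) < 1)
    refine ⟨k, ?_⟩
    rw [hiff]
    have h2 := (abs_le.1 (h x.1.1 x.1.2 k)).1
    have h3 : ((q (x.1.1, x.1.2, k) : ℝ) + 1) / 2 ^ k =
      (q (x.1.1, x.1.2, k) : ℝ) / 2 ^ k + 1 / 2 ^ k := by ring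
    have h4 : ((1 : ℝ) / 2) ^ k = 1 / 2 ^ k := by rw [div_pow, one_pow]
    rw [h4] at hk
    linarith

/-- The point `c_i` is isolated with radius `2 / 2 ^ n`, as far as the dense sequence is
concerned. -/
def Iso (M : CMS) (i n : ℕ) : Prop :=
  ¬ ∃ j, M.c i ≠ M.c j ∧ dist (M.c i) (M.c j) < 2 / 2 ^ n

/-- the index `i` is new -/
def New (M : CMS) (i : ℕ) : Prop := ∀ j < i, M.c i ≠ M.c j

theorem iso_both (M : CMS) : REIn {x | K x} (fun x : ℕ × ℕ => Iso M x.1 x.2) ∧
    REIn {x | K x} fun x : ℕ × ℕ => ¬ Iso M x.1 x.2 := by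
  have h : REPred fun x : ℕ × ℕ => ∃ j, M.c x.1 ≠ M.c j ∧ dist (M.c x.1) (M.c j) < 2 / 2 ^ x.2 := by
    refine RE.exN (p := fun (x : ℕ × ℕ) (j : ℕ) =>
      M.c x.1 ≠ M.c j ∧ dist (M.c x.1) (M.c j) < 2 / 2 ^ x.2) ?_
    refine RE.and ?_ ?_
    · exact RE.comp (pos_re M) (f := fun x : (ℕ × ℕ) × ℕ => (x.1.1, x.2)) (by fun_prop)
    · exact RE.comp (close_re M) (f := fun x : (ℕ × ℕ) × ℕ => ((x.1.1, x.2), x.1.2))
        (by fun_prop)
  obtain ⟨h1, h2⟩ := both h
  refine ⟨h2, h1.of_eq fun x => ?_⟩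
  unfold Iso
  rw [not_not]

theorem eq_both (M : CMS) : REIn {x | K x} (fun x : ℕ × ℕ => M.c x.1 = M.c x.2) ∧
    REIn {x | K x} fun x : ℕ × ℕ => M.c x.1 ≠ M.c x.2 := by
  obtain ⟨h1, h2⟩ := both (pos_re M)
  exact ⟨h2.of_eq fun x => not_not, h1⟩

theorem new_both (M : CMS) : REIn {x | K x} (New M) ∧ REIn {x | K x} fun i => ¬ New M i := by
  have h : REPred (New M) := by
    unfold New
    refine RE.all_lt (p := fun (i j : ℕ) => M.c i ≠ M.c j) (pos_re M) Computable.id
  exact both h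

open Classical in
/-- number of new indices below -/
noncomputable def cnt (M : CMS) (i : ℕ) : ℕ := Nat.count (New M) i

theorem cnt_re (M : CMS) : REIn {x | K x} fun x : ℕ × ℕ => cnt M x.1 = x.2 := by
  classical
  have h : REIn {x | K x} fun x : ℕ × ℕ => ∃ l : List ℕ,
      (l.length = x.1 ∧ (l.filter fun z => decide (z = 1)).length = x.2) ∧
      ∀ t < x.1, (l[t]? = some 1 ∧ New M t) ∨ (l[t]? = some 0 ∧ ¬ New M t) := by
    refine REIn.ex (S := fun (x : ℕ × ℕ) (l : List ℕ) =>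
      (l.length = x.1 ∧ (l.filter fun z => decide (z = 1)).length = x.2) ∧
      ∀ t < x.1, (l[t]? = some 1 ∧ New M t) ∨ (l[t]? = some 0 ∧ ¬ New M t)) ?_
    refine REIn.and (REIn.of_re (RE.and (RE.eq (by fun_prop) (by fun_prop)) (RE.eq ?_
      (by fun_prop)))) ?_
    · have hf : Primrec fun x : (ℕ × ℕ) × List ℕ => (x.2.filter fun z => decide (z = 1)).length :=
        Primrec.list_length.comp (Primrec.listFilter (Primrec.eq.comp Primrec.id
          (Primrec.const 1)) |>.comp Primrec.snd)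
      exact hf.to_comp
    · refine REIn.all_lt (S := fun (x : (ℕ × ℕ) × List ℕ) (t : ℕ) =>
        (x.2[t]? = some 1 ∧ New M t) ∨ (x.2[t]? = some 0 ∧ ¬ New M t)) ?_
        (f := fun x => x.1.1) (by fun_prop)
      refine REIn.or (REIn.and (REIn.of_re (RE.eq (by fun_prop) (by fun_prop)))
        ((new_both M).1.comp (f := fun x : ((ℕ × ℕ) × List ℕ) × ℕ => x.2) (by fun_prop)))
        (REIn.and (REIn.of_re (RE.eq (by fun_prop) (by fun_prop)))
        ((new_both M).2.comp (f := fun x : ((ℕ × ℕ) × List ℕ) × ℕ => x.2) (by fun_prop)))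
  refine h.of_eq fun x => ?_
  -- the correct list
  have key : ∀ (n : ℕ) (l : List ℕ), l.length = n →
      (∀ t < n, (l[t]? = some 1 ∧ New M t) ∨ (l[t]? = some 0 ∧ ¬ New M t)) →
      (l.filter fun z => decide (z = 1)).length = cnt M n := by
    intro n
    induction n with
    | zero =>
      intro l hl _
      rw [List.length_eq_zero_iff] at hl
      subst hl
      simp [cnt]
    | succ n ih =>
      intro l hl h
      obtain ⟨l', z, rfl⟩ : ∃ l' z, l = l' ++ [z] := by
        have hne : l ≠ [] := by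
          intro h0; rw [h0] at hl; simp at hl
        exact ⟨l.dropLast, l.getLast hne, (List.dropLast_append_getLast hne).symm⟩
      have hl' : l'.length = n := by simpa using hl
      have h1 := ih l' hl' fun t ht => by
        have := h t (by omega)
        rwa [List.getElem?_append_left (by omega)] at this
      rw [List.filter_append, List.length_append, h1]
      have h2 := h n (by omega)
      rw [List.getElem?_append_right (by omega), hl', Nat.sub_self] at h2
      unfold cnt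
      rw [Nat.count_succ]
      rcases h2 with ⟨h2, h3⟩ | ⟨h2, h3⟩
      · have h4 : z = 1 := by simpa using h2
        subst h4
        rw [if_pos h3]; simp
      · have h4 : z = 0 := by simpa using h2
        subst h4
        rw [if_neg h3]; simp
  constructor
  · rintro ⟨l, ⟨h1, h2⟩, h3⟩
    rw [← h2, key _ l h1 h3]
  · intro h1
    refine ⟨(List.range x.1).map fun t => if New M t then 1 else 0, ⟨by simp, ?_⟩, ?_⟩
    · rw [key x.1 _ (by simp), h1]
      intro t ht
      rw [List.getElem?_map, List.getElem?_range ht]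
      by_cases hn : New M t
      · left; simp [hn]
      · right; simp [hn]
    · intro t ht
      rw [List.getElem?_map, List.getElem?_range ht]
      by_cases hn : New M t
      · left; simp [hn]
      · right; simp [hn]

end Pool.Agent.TH742.TC
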