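import Pool.Agent.TH742.TC.Up

set_option autoImplicit false

/-!
The discrete space `ℕ` is categorical relative to the halting set: the homeomorphisms.
-/

namespace Pool.Agent.TH742.TC

open Encodable Pool.Agent.Helper578.JD.Oracle
open Pool.Agent.Helper578.JD hiding Red
open Pool.Agent.Helper578.JD.RE
open Pool.Agent.Helper583.TC (Red orc)
open Pool.Agent.Helper583.TT (CMS IsName pre)
open Pool.Agent.H109R3.TC

section disc

variable (M : CMS) [DiscreteTopology M.Y] [Infinite M.Y]

theorem c_surj (x : M.Y) : ∃ i, M.c i = x := by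
  have h := M.dense.exists_mem_open (isOpen_discrete {x}) ⟨x, rfl⟩
  obtain ⟨i, hi⟩ := h
  exact ⟨i, hi⟩

theorem ix_exists (x : M.Y) : ∃ i, New M i ∧ M.c i = x := by
  classical
  have h := c_surj M x
  refine ⟨Nat.find h, fun j hj hc => Nat.find_min h hj ?_, Nat.find_spec h⟩
  rw [← hc]
  exact Nat.find_spec h

/-- the new index of a point -/
noncomputable def ix (x : M.Y) : ℕ := (ix_exists M x).choose

theorem ix_new (x : M.Y) : New M (ix M x) := (ix_exists M x).choose_spec.1

theorem c_ix (x : M.Y) : M.c (ix M x) = x := (ix_exists M x).choose_spec.2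

theorem new_unique {i j : ℕ} (hi : New M i) (hj : New M j) (h : M.c i = M.c j) : i = j := by
  rcases lt_trichotomy i j with h1 | h1 | h1
  · exact absurd h.symm (hj i h1)
  · exact h1
  · exact absurd h (hi j h1)

theorem new_infinite : {i | New M i}.Infinite := by
  intro hf
  have : Finite M.Y := by
    have hf' : Finite {i | New M i} := hf
    refine Finite.of_injective (fun x : M.Y => (⟨ix M x, ix_new M x⟩ : {i | New M i})) ?_
    intro x y hxy
    have h1 : ix M x = ix M y := congrArg Subtype.val hxy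
    rw [← c_ix M x, ← c_ix M y, h1]
  exact not_finite M.Y

open Classical in
/-- the numbering of the points -/
noncomputable def num : M.Y ≃ ℕ where
  toFun x := Nat.count (New M) (ix M x)
  invFun k := M.c (Nat.nth (New M) k)
  left_inv x := by
    dsimp only
    rw [Nat.nth_count (ix_new M x), c_ix]
  right_inv k := by
    dsimp only
    have h1 : New M (Nat.nth (New M) k) := Nat.nth_mem_of_infinite (new_infinite M) k
    rw [new_unique M (ix_new M _) h1 (c_ix M _)]
    exact Nat.count_nth_of_infinite (new_infinite M) k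

theorem num_c {i j : ℕ} (hj : New M j) (h : M.c i = M.c j) : num M (M.c i) = cnt M j := by
  show cnt M (ix M (M.c i)) = cnt M j
  rw [new_unique M (ix_new M _) hj ((c_ix M _).trans h)]

theorem iso_exists (i : ℕ) : ∃ n, Iso M i n := by
  obtain ⟨ε, hε, h⟩ := Metric.isOpen_singleton_iff.1 (isOpen_discrete ({M.c i} : Set M.Y))
  obtain ⟨n, hn⟩ := exists_pow_lt_of_lt_one (half_pos hε) (by norm_num : (1 / 2 : ℝ) < 1)
  refine ⟨n, ?_⟩
  rintro ⟨j, h1, h2⟩
  refine h1 (h (M.c j) ?_).symm
  rw [dist_comm]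
  have h4 : ((1 : ℝ) / 2) ^ n = 1 / 2 ^ n := by rw [div_pow, one_pow]
  rw [h4] at hn
  have h5 : (2 : ℝ) / 2 ^ n = 2 * (1 / 2 ^ n) := by ring
  linarith

theorem iso_spec {i n : ℕ} (h : Iso M i n) {x : M.Y} (hx : dist (M.c i) x ≤ 1 / 2 ^ n) :
    M.c i = x := by
  obtain ⟨j, rfl⟩ := c_surj M x
  by_contra hne
  refine h ⟨j, hne, lt_of_le_of_lt hx ?_⟩
  have : (0 : ℝ) < 1 / 2 ^ n := by positivity
  have h5 : (2 : ℝ) / 2 ^ n = 1 / 2 ^ n + 1 / 2 ^ n := by ring
  linarith

/-- isolation is inherited by smaller radii -/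
theorem iso_mono {i n m : ℕ} (h : Iso M i n) (hnm : n ≤ m) : Iso M i m := by
  rintro ⟨j, h1, h2⟩
  refine h ⟨j, h1, lt_of_lt_of_le h2 ?_⟩
  have : (2 : ℝ) ^ n ≤ 2 ^ m := pow_le_pow_right₀ (by norm_num) hnm
  gcongr

end disc

variable (M N : CMS) [DiscreteTopology M.Y] [Infinite M.Y] [DiscreteTopology N.Y] [Infinite N.Y]

/-- the homeomorphism -/
noncomputable def hom : M.Y ≃ₜ N.Y where
  toEquiv := (num M).trans (num N).symm
  continuous_toFun := continuous_of_discreteTopology
  continuous_invFun := continuous_of_discreteTopology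

theorem hom_symm : (hom M N).symm = hom N M := by
  ext x
  rfl

/-- the map on indices -/
noncomputable def F (i : ℕ) : ℕ := ix N (hom M N (M.c i))

theorem F_iff (i j : ℕ) : F M N i = j ↔
    ∃ i' : ℕ, (M.c i = M.c i' ∧ New M i' ∧ New N j) ∧ ∃ k : ℕ, cnt M i' = k ∧ cnt N j = k := by
  have h0 : num N (hom M N (M.c i)) = num M (M.c i) := by
    show num N ((num N).symm (num M (M.c i))) = _
    rw [Equiv.apply_symm_apply]
  constructor
  · rintro rfl
    refine ⟨ix M (M.c i), ⟨(c_ix M _).symm, ix_new M _, ix_new N _⟩, num M (M.c i),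
      (num_c M (ix_new M _) (c_ix M _).symm).symm, ?_⟩
    have h1 := num_c N (i := F M N i) (ix_new N (hom M N (M.c i))) rfl
    unfold F at h1 ⊢
    rw [← h1, c_ix, h0]
  · rintro ⟨i', ⟨h1, h2, h3⟩, k, h4, h5⟩
    have h6 := num_c M h2 h1
    have h7 := num_c N (i := j) h3 rfl
    have h8 : N.c j = hom M N (M.c i) := by
      apply (num N).injective
      rw [h7, h0, h6, h4, h5]
    unfold F
    exact new_unique N (ix_new N _) h3 ((c_ix N _).trans h8.symm)

theorem F_re : REIn {x | K x} fun x : ℕ × ℕ => F M N x.1 = x.2 := by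
  have h : REIn {x | K x} fun x : ℕ × ℕ => ∃ i' : ℕ, (M.c x.1 = M.c i' ∧ New M i' ∧ New N x.2) ∧
      ∃ k : ℕ, cnt M i' = k ∧ cnt N x.2 = k := by
    refine REIn.ex (S := fun (x : ℕ × ℕ) (i' : ℕ) => (M.c x.1 = M.c i' ∧ New M i' ∧ New N x.2) ∧
      ∃ k : ℕ, cnt M i' = k ∧ cnt N x.2 = k) ?_
    refine REIn.and (REIn.and ?_ (REIn.and ?_ ?_)) ?_
    · exact (eq_both M).1.comp (f := fun x : (ℕ × ℕ) × ℕ => (x.1.1, x.2)) (by fun_prop)
    · exact (new_both M).1.comp (f := fun x : (ℕ × ℕ) × ℕ => x.2) (by fun_prop)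
    · exact (new_both N).1.comp (f := fun x : (ℕ × ℕ) × ℕ => x.1.2) (by fun_prop)
    · refine REIn.ex (S := fun (x : (ℕ × ℕ) × ℕ) (k : ℕ) => cnt M x.2 = k ∧ cnt N x.1.2 = k) ?_
      refine REIn.and ?_ ?_
      · exact (cnt_re M).comp (f := fun x : ((ℕ × ℕ) × ℕ) × ℕ => (x.1.2, x.2)) (by fun_prop)
      · exact (cnt_re N).comp (f := fun x : ((ℕ × ℕ) × ℕ) × ℕ => (x.1.1.2, x.2)) (by fun_prop)
  exact h.of_eq fun x => (F_iff M N x.1 x.2).symm

/-- entry of a list -/
def ent (σ : List ℕ) (t : ℕ) : ℕ := (σ[t]?).getD 0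

theorem ent_comp {α : Type} [Primcodable α] {f : α → List ℕ} {g : α → ℕ} (hf : Computable f)
    (hg : Computable g) : Computable fun a => ent (f a) (g a) :=
  Computable.option_getD (Computable.list_getElem?.comp hf hg) (Computable.const 0)

/-- the good positions -/
def Gd (σ : List ℕ) (t : ℕ) : Prop := t < σ.length ∧ Iso M (ent σ t) t

open Classical in
/-- the functional -/
noncomputable def Φ (x : List ℕ × ℕ) : Option ℕ :=
  if h : ∃ t, Gd M x.1 t then some (F M N (ent x.1 (Nat.find h))) else none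

theorem Φ_re : REIn {x | K x} fun x : (List ℕ × ℕ) × Option ℕ => Φ M N x.1 = x.2 := by
  classical
  have i1 : ∀ {α : Type} [Primcodable α] {f : α → List ℕ} {g : α → ℕ}, Computable f →
      Computable g → REIn {x | K x} fun a => Iso M (ent (f a) (g a)) (g a) := by
    intro α _ f g hf hg
    exact (iso_both M).1.comp (f := fun a => (ent (f a) (g a), g a)) ((ent_comp hf hg).pair hg)
  have i2 : ∀ {α : Type} [Primcodable α] {f : α → List ℕ} {g : α → ℕ}, Computable f →
      Computable g → REIn {x | K x} fun a => ¬ Iso M (ent (f a) (g a)) (g a) := by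
    intro α _ f g hf hg
    exact (iso_both M).2.comp (f := fun a => (ent (f a) (g a), g a)) ((ent_comp hf hg).pair hg)
  have h : REIn {x | K x} fun x : (List ℕ × ℕ) × Option ℕ =>
      (x.2 = none ∧ ∀ t < x.1.1.length, ¬ Iso M (ent x.1.1 t) t) ∨
      ∃ y : ℕ × ℕ, ((y.1 < x.1.1.length ∧ x.2 = some y.2) ∧ Iso M (ent x.1.1 y.1) y.1 ∧
        F M N (ent x.1.1 y.1) = y.2) ∧ ∀ s < y.1, ¬ Iso M (ent x.1.1 s) s := by
    refine REIn.or (REIn.and (REIn.of_re (RE.eq Computable.snd (Computable.const _))) ?_) ?_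
    · refine REIn.all_lt (S := fun (x : (List ℕ × ℕ) × Option ℕ) (t : ℕ) =>
        ¬ Iso M (ent x.1.1 t) t) ?_ (f := fun x => x.1.1.length) ?_
      · exact i2 (f := fun x : ((List ℕ × ℕ) × Option ℕ) × ℕ => x.1.1.1)
          (Computable.fst.comp (Computable.fst.comp Computable.fst)) Computable.snd
      · exact Computable.list_length.comp (Computable.fst.comp Computable.fst)
    · refine REIn.ex (S := fun (x : (List ℕ × ℕ) × Option ℕ) (y : ℕ × ℕ) =>
        ((y.1 < x.1.1.length ∧ x.2 = some y.2) ∧ Iso M (ent x.1.1 y.1) y.1 ∧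
        F M N (ent x.1.1 y.1) = y.2) ∧ ∀ s < y.1, ¬ Iso M (ent x.1.1 s) s) ?_
      have c1 : Computable fun x : ((List ℕ × ℕ) × Option ℕ) × (ℕ × ℕ) => x.1.1.1 :=
        Computable.fst.comp (Computable.fst.comp Computable.fst)
      have c2 : Computable fun x : ((List ℕ × ℕ) × Option ℕ) × (ℕ × ℕ) => x.2.1 :=
        Computable.fst.comp Computable.snd
      have c3 : Computable fun x : ((List ℕ × ℕ) × Option ℕ) × (ℕ × ℕ) => x.2.2 :=
        Computable.snd.comp Computable.snd
      refine REIn.and (REIn.and (REIn.of_re (RE.and (RE.lt c2 (Computable.list_length.comp c1))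
        (RE.eq (Computable.snd.comp Computable.fst) (Computable.option_some.comp c3))))
        (REIn.and (i1 c1 c2) ?_)) ?_
      · exact (F_re M N).comp (f := fun x : ((List ℕ × ℕ) × Option ℕ) × (ℕ × ℕ) =>
          (ent x.1.1.1 x.2.1, x.2.2)) ((ent_comp c1 c2).pair c3)
      · refine REIn.all_lt (S := fun (x : ((List ℕ × ℕ) × Option ℕ) × (ℕ × ℕ)) (s : ℕ) =>
          ¬ Iso M (ent x.1.1.1 s) s) ?_ (f := fun x => x.2.1) c2
        exact i2 (f := fun x : (((List ℕ × ℕ) × Option ℕ) × (ℕ × ℕ)) × ℕ => x.1.1.1.1)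
          (c1.comp Computable.fst) Computable.snd
  refine h.of_eq fun x => ?_
  unfold Φ
  by_cases hx : ∃ t, Gd M x.1.1 t
  · rw [dif_pos hx]
    constructor
    · rintro (⟨-, h2⟩ | ⟨y, ⟨⟨h1, h2⟩, h3, h4⟩, h5⟩)
      · obtain ⟨t, ht1, ht2⟩ := hx
        exact absurd ht2 (h2 t ht1)
      · have h6 : Nat.find hx = y.1 := by
          rw [Nat.find_eq_iff]
          exact ⟨⟨h1, h3⟩, fun s hs hs' => h5 s hs hs'.2⟩
        rw [h6, h4, h2]
    · intro h1
      refine Or.inr ⟨(Nat.find hx, F M N (ent x.1.1 (Nat.find hx))),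
        ⟨⟨(Nat.find_spec hx).1, h1.symm⟩, (Nat.find_spec hx).2, rfl⟩, fun s hs hs' => ?_⟩
      exact Nat.find_min hx hs ⟨lt_trans hs (Nat.find_spec hx).1, hs'⟩
  · rw [dif_neg hx]
    constructor
    · rintro (⟨h1, -⟩ | ⟨y, ⟨⟨h1, h2⟩, h3, h4⟩, h5⟩)
      · exact h1.symm
      · exact absurd ⟨y.1, h1, h3⟩ hx
    · intro h1
      exact Or.inl ⟨h1.symm, fun t ht ht' => hx ⟨t, ht, ht'⟩⟩

theorem ent_pre (p : ℕ → ℕ) {k t : ℕ} (ht : t < k) : ent (pre p k) t = p t := by
  unfold ent pre
  rw [List.getElem?_map, List.getElem?_range ht]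
  rfl

theorem hom_comp : CompMapIn (chi K) M N (hom M N) := by
  classical
  refine ⟨fun x => (Φ M N x : Part ℕ), ?_, ?_⟩
  · rw [orc_chi]
    exact recIn_option (Φ_re M N)
  · intro x p hp
    refine ⟨fun _ => ix N (hom M N x), fun k => ?_, fun n => ?_⟩
    · rw [c_ix, dist_self]; positivity
    · have hval : ∀ k (h : ∃ t, Gd M (pre p k) t),
          F M N (ent (pre p k) (Nat.find h)) = ix N (hom M N x) := by
        intro k h
        obtain ⟨h1, h2⟩ := Nat.find_spec h
        have h3 : Nat.find h < k := by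
          have : (pre p k).length = k := by simp [pre]
          omega
        rw [ent_pre p h3] at h2 ⊢
        unfold F
        rw [iso_spec M h2 (hp _)]
      constructor
      · -- a good position exists
        obtain ⟨i, rfl⟩ := c_surj M x
        obtain ⟨n0, hn0⟩ := iso_exists M i
        have hpi : M.c (p (n0 + 1)) = M.c i := by
          refine (iso_spec M hn0 ?_).symm
          rw [dist_comm]
          refine (hp (n0 + 1)).trans ?_
          have : (2 : ℝ) ^ n0 ≤ 2 ^ (n0 + 1) := pow_le_pow_right₀ (by norm_num) (Nat.le_succ n0)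
          gcongr
        have hiso : Iso M (p (n0 + 1)) (n0 + 1) := by
          have h1 := iso_mono M hn0 (Nat.le_succ n0)
          unfold Iso at h1 ⊢
          rw [hpi]
          exact h1
        have hg : ∃ t, Gd M (pre p (n0 + 2)) t := by
          refine ⟨n0 + 1, ?_, ?_⟩
          · simp [pre]
          · rw [ent_pre p (by omega)]; exact hiso
        refine ⟨n0 + 2, ?_⟩
        rw [Part.mem_coe]
        unfold Φ
        rw [dif_pos hg, hval _ hg]
        rfl
      · intro k m hm
        rw [Part.mem_coe] at hm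
        unfold Φ at hm
        by_cases hg : ∃ t, Gd M (pre p k) t
        · rw [dif_pos hg, hval _ hg] at hm
          exact (Option.some.inj hm).symm
        · rw [dif_neg hg] at hm
          cases hm

theorem catBoth_nat : CatBoth ℕ (chi K) := by
  rintro M N ⟨hM⟩ ⟨hN⟩
  have h1 : DiscreteTopology M.Y := hM.isEmbedding.discreteTopology
  have h2 : DiscreteTopology N.Y := hN.isEmbedding.discreteTopology
  have h3 : Infinite M.Y := Infinite.of_injective _ hM.symm.injective
  have h4 : Infinite N.Y := Infinite.of_injective _ hN.symm.injective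
  refine ⟨hom M N, hom_comp M N, ?_⟩
  rw [hom_symm]
  exact hom_comp N M

end Pool.Agent.TH742.TC
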